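import Mathlib
import Pool.Agent.H29.PosDefMeas

set_option autoImplicit false

/-!
# Measurability of the parts of a norm-minimal positive decomposition

We prove that Q1 of the problem has a positive answer: for every `A ∈ (0, ∞]`, every Hermitian
Lebesgue measurable `f` in `R_A` and every minimal decomposition `f = f₊ - f₋`, both `f₊` and
`f₋` are Lebesgue measurable.

The proof: if `p` is a real almost periodic polynomial of norm at most one which nearly attains
the norm of the functional of `f`, then positivity of the functionals of `f₊` and `f₋` forces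
`f₊ + f₋` to be uniformly close, in a neighbourhood of `0`, to a finite linear combination of
translates of `f`. So `f₊` is uniformly close to measurable functions near `0`. A positive
definite function with that property is measurable: otherwise there would be two sets of full
outer measure in a set of positive measure which are separated by `f₊`, and the element of
minimal norm of the closed convex hull of the differences of the corresponding kernel vectors
gives a contradiction (`Pool.Agent.H29.PosDefMeas.aemeasurable_of_approx`).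
-/

open MeasureTheory Set Filter Topology
open scoped ENNReal ComplexConjugate

namespace Pool.Agent.Results.MP_a2f955_an.Measurability

/-- The open interval `(-A, A)`, for `A ∈ (0, ∞]` (it is all of `ℝ` when `A = ∞`). -/
def Itv (A : ℝ≥0∞) : Set ℝ := {x | ENNReal.ofReal |x| < A}

/-- An element `∑ c_k e^{i λ_k t}` of `AP_A`, given by its finitely many coefficients: the
coefficient of `e^{i λ t}` is `p λ`, for `λ` in `(-A, A)`. -/
abbrev AP (A : ℝ≥0∞) : Type := Itv A →₀ ℂ

/-- The value at the real number `t` of the almost periodic polynomial `p`. -/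
noncomputable def evalAP {A : ℝ≥0∞} (p : AP A) (t : ℝ) : ℂ :=
  p.sum fun lam c => c * Complex.exp (Complex.I * (lam : ℝ) * t)

/-- The norm of `p`, the supremum of `|p(t)|` over all real `t`. -/
noncomputable def normAP {A : ℝ≥0∞} (p : AP A) : ℝ := ⨆ t : ℝ, ‖evalAP p t‖

/-- The linear functional `Φ_f` on `AP_A` with `Φ_f(e_λ) = f(λ)`. -/
noncomputable def Phi {A : ℝ≥0∞} (f : Itv A → ℂ) (p : AP A) : ℂ :=
  p.sum fun lam c => c * f lam

/-- `f ∈ R_A`: the functional `Φ_f` is bounded. -/
def InR {A : ℝ≥0∞} (f : Itv A → ℂ) : Prop :=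
  ∃ C : ℝ, ∀ p : AP A, ‖Phi f p‖ ≤ C * normAP p

/-- The norm `‖f‖_A` of the functional `Φ_f`. -/
noncomputable def normR {A : ℝ≥0∞} (f : Itv A → ℂ) : ℝ :=
  sSup {r : ℝ | ∃ p : AP A, normAP p ≤ 1 ∧ r = ‖Phi f p‖}

lemma neg_mem_Itv {A : ℝ≥0∞} {x : ℝ} (hx : x ∈ Itv A) : -x ∈ Itv A := by
  simpa [Itv] using hx

/-- `f` is Hermitian: `f(-λ)` is the complex conjugate of `f(λ)`. -/
def Herm {A : ℝ≥0∞} (f : Itv A → ℂ) : Prop :=
  ∀ lam : Itv A, f ⟨-(lam : ℝ), neg_mem_Itv lam.2⟩ = conj (f lam)

/-- `f ∈ P_A`: `f` is in `R_A` and `Φ_f(p) ≥ 0` whenever `p(t) ≥ 0` for all real `t`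
(both inequalities include that the complex number in question is real). -/
def InP {A : ℝ≥0∞} (f : Itv A → ℂ) : Prop :=
  InR f ∧ ∀ p : AP A, (∀ t : ℝ, ∃ r : ℝ, 0 ≤ r ∧ evalAP p t = r) → ∃ r : ℝ, 0 ≤ r ∧ Phi f p = r

/-- `f : (-A, A) → ℂ` is Lebesgue measurable: preimages of Borel sets are Lebesgue measurable
subsets of the real line (`NullMeasurableSet` for Lebesgue measure). -/
def LebMeas {A : ℝ≥0∞} (f : Itv A → ℂ) : Prop :=
  ∀ U : Set ℂ, MeasurableSet U → NullMeasurableSet {x : ℝ | ∃ h : x ∈ Itv A, f ⟨x, h⟩ ∈ U} volume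

/-- The point `0` of `(-A, A)`. -/
def zeroI {A : ℝ≥0∞} (hA : 0 < A) : Itv A := ⟨0, by simpa [Itv] using hA⟩

/-- `f = f₊ - f₋` is a minimal decomposition: `f₊, f₋ ∈ P_A` and `‖f‖_A = f₊(0) + f₋(0)`. -/
structure IsMinimalDecomposition {A : ℝ≥0∞} (hA : 0 < A) (f fp fm : Itv A → ℂ) : Prop where
  pos : InP fp
  neg : InP fm
  decomp : ∀ lam, f lam = fp lam - fm lam
  minimal : (normR f : ℂ) = fp (zeroI hA) + fm (zeroI hA)

/-! ### Elementary properties -/

/-- Extension by zero to the whole line. -/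
noncomputable def ext0 {A : ℝ≥0∞} (f : Itv A → ℂ) (x : ℝ) : ℂ :=
  open Classical in if h : x ∈ Itv A then f ⟨x, h⟩ else 0

lemma ext0_of_mem {A : ℝ≥0∞} (f : Itv A → ℂ) {x : ℝ} (hx : x ∈ Itv A) :
    ext0 f x = f ⟨x, hx⟩ := by
  simp [ext0, hx]

lemma isOpen_Itv (A : ℝ≥0∞) : IsOpen (Itv A) := by
  have h : Continuous (fun x : ℝ => ENNReal.ofReal |x|) :=
    ENNReal.continuous_ofReal.comp continuous_abs
  exact isOpen_Iio.preimage h

lemma zero_mem_Itv {A : ℝ≥0∞} (hA : 0 < A) : (0 : ℝ) ∈ Itv A := (zeroI hA).2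

lemma measurableSet_Itv (A : ℝ≥0∞) : MeasurableSet (Itv A) := (isOpen_Itv A).measurableSet

lemma aemeasurable_ext0 {A : ℝ≥0∞} {f : Itv A → ℂ} (hf : LebMeas f) :
    AEMeasurable (ext0 f) volume := by
  classical
  apply NullMeasurable.aemeasurable
  intro U hU
  have : ext0 f ⁻¹' U = {x : ℝ | ∃ h : x ∈ Itv A, f ⟨x, h⟩ ∈ U} ∪
      ((Itv A)ᶜ ∩ {_x : ℝ | (0 : ℂ) ∈ U}) := by
    ext x
    by_cases hx : x ∈ Itv A <;> simp [ext0, hx]
  rw [this]
  refine (hf U hU).union ?_
  exact ((measurableSet_Itv A).compl.inter (MeasurableSet.const _)).nullMeasurableSet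

lemma lebMeas_of_aemeasurable {A : ℝ≥0∞} {f : Itv A → ℂ}
    (hf : AEMeasurable (ext0 f) (volume.restrict (Itv A))) : LebMeas f := by
  intro U hU
  have h1 := hf.nullMeasurable hU
  rw [nullMeasurableSet_restrict (measurableSet_Itv A).nullMeasurableSet] at h1
  have : {x : ℝ | ∃ h : x ∈ Itv A, f ⟨x, h⟩ ∈ U} = ext0 f ⁻¹' U ∩ Itv A := by
    ext x
    by_cases hx : x ∈ Itv A <;> simp [ext0, hx]
  rw [this]
  exact h1

lemma evalAP_sum_single {A : ℝ≥0∞} {κ : Type*} (s : Finset κ) (μ : κ → Itv A) (d : κ → ℂ)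
    (t : ℝ) : evalAP (∑ k ∈ s, Finsupp.single (μ k) (d k)) t =
      ∑ k ∈ s, d k * Complex.exp (Complex.I * (μ k : ℝ) * t) := by
  have h : ∀ p : AP A, evalAP p t = Finsupp.linearCombination ℂ
      (fun lam : Itv A => Complex.exp (Complex.I * (lam : ℝ) * t)) p := fun p => rfl
  rw [h, map_sum]
  simp [Finsupp.linearCombination_single]

lemma phi_sum_single {A : ℝ≥0∞} {κ : Type*} (f : Itv A → ℂ) (s : Finset κ) (μ : κ → Itv A)
    (d : κ → ℂ) : Phi f (∑ k ∈ s, Finsupp.single (μ k) (d k)) = ∑ k ∈ s, d k * f (μ k) := by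
  have h : ∀ p : AP A, Phi f p = Finsupp.linearCombination ℂ f p := fun p => rfl
  rw [h, map_sum]
  simp [Finsupp.linearCombination_single]

/-- Positivity for finite families of frequencies. -/
lemma pos_family {A : ℝ≥0∞} {g : Itv A → ℂ} (hg : InP g) {κ : Type*} [Fintype κ] (μ : κ → ℝ)
    (hμ : ∀ k, μ k ∈ Itv A) (d : κ → ℂ)
    (hpos : ∀ t : ℝ, ∃ r : ℝ, 0 ≤ r ∧ ∑ k, d k * Complex.exp (Complex.I * (μ k : ℝ) * t) = r) :
    ∃ r : ℝ, 0 ≤ r ∧ ∑ k, d k * ext0 g (μ k) = r := by
  have h := hg.2 (∑ k, Finsupp.single (⟨μ k, hμ k⟩ : Itv A) (d k)) (by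
    intro t
    rw [evalAP_sum_single]
    exact hpos t)
  rw [phi_sum_single] at h
  simpa [ext0_of_mem _ (hμ _)] using h

/-- Members of `P_A` are Hermitian. -/
lemma herm_of_pos {A : ℝ≥0∞} (hA : 0 < A) {g : Itv A → ℂ} (hg : InP g) {x : ℝ}
    (hx : x ∈ Itv A) : ext0 g (-x) = conj (ext0 g x) := by
  have h0 := zero_mem_Itv hA
  have hnx := neg_mem_Itv hx
  -- `g 0` is real
  obtain ⟨r0, hr0, hr0'⟩ := pos_family hg (κ := Unit) (fun _ => 0) (fun _ => h0) (fun _ => 1)
    (fun t => ⟨1, zero_le_one, by simp⟩)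
  obtain ⟨r1, hr1, hr1'⟩ := pos_family hg (κ := Fin 3) ![0, x, -x]
    (by intro k; fin_cases k <;> simpa) ![2, 1, 1] (by
      intro t
      refine ⟨2 + 2 * Real.cos (x * t), by nlinarith [Real.neg_one_le_cos (x * t)], ?_⟩
      simp only [Fin.sum_univ_three, Matrix.cons_val_zero, Matrix.cons_val_one,
        Matrix.cons_val_two, Matrix.head_cons, Matrix.tail_cons]
      push_cast
      rw [Complex.cos]
      simp only [mul_zero, zero_mul, Complex.exp_zero]
      ring_nf)
  obtain ⟨r2, hr2, hr2'⟩ := pos_family hg (κ := Fin 3) ![0, x, -x]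
    (by intro k; fin_cases k <;> simpa) ![2, Complex.I, -Complex.I] (by
      intro t
      refine ⟨2 - 2 * Real.sin (x * t), by nlinarith [Real.sin_le_one (x * t)], ?_⟩
      simp only [Fin.sum_univ_three, Matrix.cons_val_zero, Matrix.cons_val_one,
        Matrix.cons_val_two, Matrix.head_cons, Matrix.tail_cons]
      push_cast
      rw [Complex.sin]
      simp only [mul_zero, zero_mul, Complex.exp_zero]
      ring_nf)
  simp only [Fin.sum_univ_three, Matrix.cons_val_zero, Matrix.cons_val_one,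
    Matrix.cons_val_two, Matrix.head_cons, Matrix.tail_cons, Finset.univ_unique,
    Finset.sum_const, Finset.card_singleton, one_smul, one_mul] at hr0' hr1' hr2'
  rw [hr0'] at hr1' hr2'
  have e1 := congrArg Complex.im hr1'
  have e2 := congrArg Complex.im hr2'
  simp at e1 e2
  apply Complex.ext
  · simp; linarith
  · simp; linarith

/-- Members of `P_A` are positive definite on sets whose differences lie in `(-A, A)`. -/
lemma psd_of_pos {A : ℝ≥0∞} {g : Itv A → ℂ} (hg : InP g) (X : Set ℝ)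
    (hX : ∀ x ∈ X, ∀ y ∈ X, y - x ∈ Itv A) (a : X →₀ ℂ) :
    0 ≤ (a.sum fun x z => a.sum fun y w =>
      conj z * w * ext0 g ((y : ℝ) - (x : ℝ))).re := by
  classical
  obtain ⟨r, hr, hr'⟩ := pos_family hg (κ := a.support × a.support)
    (fun k => ((k.2 : X) : ℝ) - ((k.1 : X) : ℝ))
    (fun k => hX _ (k.1 : X).2 _ (k.2 : X).2)
    (fun k => conj (a k.1) * a k.2) (by
      intro t
      refine ⟨‖∑ y : a.support, a y * Complex.exp (Complex.I * ((y : X) : ℝ) * t)‖ ^ 2,
        by positivity, ?_⟩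
      rw [Fintype.sum_prod_type]
      push_cast
      rw [← Complex.conj_mul', map_sum, Finset.sum_mul_sum]
      refine Finset.sum_congr rfl fun x _ => Finset.sum_congr rfl fun y _ => ?_
      rw [map_mul, ← Complex.exp_conj]
      simp only [map_mul, Complex.conj_I, Complex.conj_ofReal]
      rw [show Complex.I * ((((y : X) : ℝ) : ℂ) - (((x : X) : ℝ) : ℂ)) * (t : ℂ) =
        -Complex.I * (((x : X) : ℝ) : ℂ) * (t : ℂ) + Complex.I * (((y : X) : ℝ) : ℂ) * (t : ℂ)
        by ring, Complex.exp_add]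
      ring)
  have : (a.sum fun x z => a.sum fun y w => conj z * w * ext0 g ((y : ℝ) - (x : ℝ))) =
      ∑ k : a.support × a.support, conj (a k.1) * a k.2 *
        ext0 g (((k.2 : X) : ℝ) - ((k.1 : X) : ℝ)) := by
    rw [Fintype.sum_prod_type]
    simp only [Finsupp.sum]
    rw [← Finset.sum_coe_sort]
    refine Finset.sum_congr rfl fun x _ => ?_
    rw [← Finset.sum_coe_sort]
  rw [this, hr']
  simpa using hr

/-- The key estimate: if `q(t) = ∑ c_i e^{i λ_i t}` has real part at most one, then for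
`g ∈ P_A` the defect `g(s) - ½ ∑ (c_i g(λ_i + s) + conj c_i g(s - λ_i))` is bounded by its
value at `s = 0`. -/
lemma key_estimate {A : ℝ≥0∞} (hA : 0 < A) {g : Itv A → ℂ} (hg : InP g) {ι : Type*} [Fintype ι]
    (lam : ι → ℝ) (c : ι → ℂ)
    (hq : ∀ t : ℝ, (∑ i, c i * Complex.exp (Complex.I * (lam i : ℝ) * t)).re ≤ 1)
    (s : ℝ) (hs : s ∈ Itv A) (hl : ∀ i, lam i ∈ Itv A) (hls : ∀ i, lam i + s ∈ Itv A)
    (hls' : ∀ i, s - lam i ∈ Itv A) :
    ‖ext0 g s - (1 / 2) * ∑ i, (c i * ext0 g (lam i + s) + conj (c i) * ext0 g (s - lam i))‖ ≤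
      (ext0 g 0).re - (∑ i, c i * ext0 g (lam i)).re := by
  classical
  set T : ℂ := ext0 g s -
    (1 / 2) * ∑ i, (c i * ext0 g (lam i + s) + conj (c i) * ext0 g (s - lam i)) with hT
  -- a unimodular number rotating `T` to the positive axis
  obtain ⟨w, hw1, hw2⟩ : ∃ w : ℂ, ‖w‖ = 1 ∧ w * T = ‖T‖ := by
    by_cases h0 : T = 0
    · exact ⟨1, by simp, by simp [h0]⟩
    · have hn : (‖T‖ : ℂ) ≠ 0 := by simpa using h0
      refine ⟨conj T / ‖T‖, ?_, ?_⟩
      · rw [norm_div, RCLike.norm_conj]
        simp [h0]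
      · rw [div_mul_eq_mul_div, Complex.conj_mul']
        field_simp
  -- the family of frequencies of `(1 - Re q) (1 - Re (w e_s))`
  let m1 : Option (ι × Bool) → ℝ := fun a =>
    match a with
    | none => 0
    | some (i, true) => lam i
    | some (i, false) => -lam i
  let d1 : Option (ι × Bool) → ℂ := fun a =>
    match a with
    | none => 1
    | some (i, true) => -(c i / 2)
    | some (i, false) => -(conj (c i) / 2)
  let m2 : Option Bool → ℝ := fun b =>
    match b with
    | none => 0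
    | some true => s
    | some false => -s
  let d2 : Option Bool → ℂ := fun b =>
    match b with
    | none => 1
    | some true => -(w / 2)
    | some false => -(conj w / 2)
  have h0 := zero_mem_Itv hA
  obtain ⟨r, hr, hr'⟩ := pos_family hg (κ := Option (ι × Bool) × Option Bool)
    (fun k => m1 k.1 + m2 k.2) (by
      rintro ⟨a, b⟩
      rcases a with _ | ⟨i, _ | _⟩ <;> rcases b with _ | _ | _ <;> simp only [m1, m2]
      · simpa using h0
      · simpa using neg_mem_Itv hs
      · simpa using hs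
      · simpa using neg_mem_Itv (hl i)
      · have := neg_mem_Itv (hls i)
        rwa [neg_add] at this
      · have := hls' i
        rwa [sub_eq_neg_add] at this
      · simpa using hl i
      · have := neg_mem_Itv (hls' i)
        rw [neg_sub] at this
        rwa [← sub_eq_add_neg]
      · exact hls i)
    (fun k => d1 k.1 * d2 k.2) (by
      intro t
      set q : ℂ := ∑ i, c i * Complex.exp (Complex.I * (lam i : ℝ) * t) with hqdef
      set e : ℂ := w * Complex.exp (Complex.I * s * t) with hedef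
      have he : ‖e‖ = 1 := by
        rw [hedef, norm_mul, hw1, one_mul, Complex.norm_exp]
        simp
      refine ⟨(1 - q.re) * (1 - e.re), mul_nonneg (by linarith [hq t])
        (by linarith [Complex.re_le_norm e]), ?_⟩
      have e1 : ∀ z : ℂ, (z.re : ℂ) = (z + conj z) / 2 := by
        intro z
        rw [Complex.add_conj]
        push_cast
        ring
      rw [Fintype.sum_prod_type]
      have e2 : ∀ a : Option (ι × Bool), ∀ b : Option Bool,
          d1 a * d2 b * Complex.exp (Complex.I * ((m1 a + m2 b : ℝ) : ℂ) * t) =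
          (d1 a * Complex.exp (Complex.I * (m1 a : ℝ) * t)) *
            (d2 b * Complex.exp (Complex.I * (m2 b : ℝ) * t)) := by
        intro a b
        push_cast
        rw [mul_add, add_mul, Complex.exp_add]
        ring
      simp only [e2]
      rw [← Finset.sum_mul_sum]
      have e3 : ∑ b, d2 b * Complex.exp (Complex.I * (m2 b : ℝ) * t) = ((1 - e.re : ℝ) : ℂ) := by
        rw [Fintype.sum_option]
        simp only [Fintype.univ_bool, Finset.mem_singleton, Bool.true_eq_false, not_false_eq_true,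
          Finset.sum_insert, Finset.sum_singleton, d2, m2]
        push_cast
        rw [e1 e, hedef, map_mul, ← Complex.exp_conj]
        simp only [map_mul, Complex.conj_I, Complex.conj_ofReal]
        simp only [mul_zero, zero_mul, Complex.exp_zero]
        rw [show Complex.I * -(s : ℂ) * t = -Complex.I * s * t by ring]
        ring
      have e4 : ∑ a, d1 a * Complex.exp (Complex.I * (m1 a : ℝ) * t) = ((1 - q.re : ℝ) : ℂ) := by
        rw [Fintype.sum_option, Fintype.sum_prod_type]
        simp only [Fintype.univ_bool, Finset.mem_singleton, Bool.true_eq_false, not_false_eq_true,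
          Finset.sum_insert, Finset.sum_singleton, d1, m1]
        push_cast
        rw [e1 q, hqdef, map_sum, ← Finset.sum_add_distrib, Finset.sum_div]
        simp only [mul_zero, zero_mul, Complex.exp_zero]
        rw [mul_one, sub_eq_add_neg, ← Finset.sum_neg_distrib]
        congr 1
        refine Finset.sum_congr rfl fun i _ => ?_
        rw [map_mul, ← Complex.exp_conj]
        simp only [map_mul, Complex.conj_I, Complex.conj_ofReal]
        rw [show Complex.I * -(lam i : ℂ) * t = -Complex.I * lam i * t by ring]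
        ring
      rw [e3, e4]
      push_cast
      ring)
  -- evaluate the sum
  have hval : (r : ℂ) = (ext0 g 0 - (1 / 2) * ∑ i, (c i * ext0 g (lam i) +
      conj (c i) * conj (ext0 g (lam i)))) - (w * T + conj (w * T)) / 2 := by
    rw [← hr', Fintype.sum_prod_type_right, Fintype.sum_option]
    simp only [Fintype.univ_bool, Finset.mem_singleton, Bool.true_eq_false, not_false_eq_true,
      Finset.sum_insert, Finset.sum_singleton, Fintype.sum_option, Fintype.sum_prod_type, d1, m1,
      d2, m2]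
    have hTc : conj T = ext0 g (-s) -
        (1 / 2) * ∑ i, (c i * ext0 g (lam i - s) + conj (c i) * ext0 g (-s - lam i)) := by
      rw [hT, map_sub, map_mul, map_sum, herm_of_pos hA hg hs]
      congr 2
      · rw [map_div₀, map_one, map_ofNat]
      · refine Finset.sum_congr rfl fun i _ => ?_
        rw [map_add, map_mul, map_mul, Complex.conj_conj,
          show lam i - s = -(s - lam i) by ring, show -s - lam i = -(lam i + s) by ring,
          herm_of_pos hA hg (hls' i), herm_of_pos hA hg (hls i)]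
        ring
    rw [map_mul, hTc, hT]
    have hneg : ∀ i, ext0 g (-lam i) = conj (ext0 g (lam i)) := fun i => herm_of_pos hA hg (hl i)
    simp only [add_zero, zero_add, one_mul, mul_one, hneg]
    have e5 : ∀ i, ext0 g (-lam i + s) = ext0 g (s - lam i) := fun i => by
      rw [neg_add_eq_sub]
    have e6 : ∀ i, ext0 g (-lam i + -s) = ext0 g (-s - lam i) := fun i => by
      congr 1; ring
    have e7 : ∀ i, ext0 g (lam i + -s) = ext0 g (lam i - s) := fun i => by
      congr 1
    simp only [e5, e6, e7]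
    simp only [Finset.sum_add_distrib, mul_add, Finset.mul_sum, neg_mul, Finset.sum_neg_distrib,
      mul_neg]
    have e8 : ∀ (a : ℂ) (u : ι → ℂ), ∑ i, c i / 2 * a * u i = a / 2 * ∑ i, c i * u i := by
      intro a u
      rw [Finset.mul_sum]
      exact Finset.sum_congr rfl fun i _ => by ring
    have e9 : ∀ (a : ℂ) (u : ι → ℂ), ∑ i, conj (c i) / 2 * a * u i =
        a / 2 * ∑ i, conj (c i) * u i := by
      intro a u
      rw [Finset.mul_sum]
      exact Finset.sum_congr rfl fun i _ => by ring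
    have e10 : ∀ u : ι → ℂ, ∑ i, c i / 2 * u i = 1 / 2 * ∑ i, c i * u i := by
      intro u
      rw [Finset.mul_sum]
      exact Finset.sum_congr rfl fun i _ => by ring
    have e11 : ∀ u : ι → ℂ, ∑ i, conj (c i) / 2 * u i = 1 / 2 * ∑ i, conj (c i) * u i := by
      intro u
      rw [Finset.mul_sum]
      exact Finset.sum_congr rfl fun i _ => by ring
    simp only [e8, e9, e10, e11, ← Finset.mul_sum]
    ring
  rw [hw2] at hval
  have hre := congrArg Complex.re hval
  have e12 : ∀ i, c i * ext0 g (lam i) + conj (c i) * conj (ext0 g (lam i)) =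
      ((2 * (c i * ext0 g (lam i)).re : ℝ) : ℂ) := by
    intro i
    rw [← map_mul, Complex.add_conj]
  simp only [e12] at hre
  rw [← Complex.ofReal_sum, ← Finset.mul_sum] at hre
  simp only [Complex.ofReal_re, Complex.sub_re, Complex.conj_ofReal] at hre
  have e13 : ((1 / 2 : ℂ) * ((2 * ∑ i, (c i * ext0 g (lam i)).re : ℝ) : ℂ)).re =
      ∑ i, (c i * ext0 g (lam i)).re := by
    rw [show (1 / 2 : ℂ) = ((1 / 2 : ℝ) : ℂ) by push_cast; rfl, ← Complex.ofReal_mul,
      Complex.ofReal_re]
    ring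
  have e14 : (((‖T‖ : ℂ) + (‖T‖ : ℂ)) / 2).re = ‖T‖ := by
    rw [add_self_div_two, Complex.ofReal_re]
  rw [e13, e14] at hre
  rw [Complex.re_sum]
  linarith

lemma norm_evalAP_le {A : ℝ≥0∞} (p : AP A) (t : ℝ) : ‖evalAP p t‖ ≤ normAP p := by
  apply le_ciSup (f := fun t : ℝ => ‖evalAP p t‖) _ t
  refine ⟨∑ l ∈ p.support, ‖p l‖, ?_⟩
  rintro _ ⟨t, rfl⟩
  refine (norm_sum_le _ _).trans ?_
  refine Finset.sum_le_sum fun l _ => ?_
  rw [norm_mul, Complex.norm_exp]
  simp

lemma norm_phi_le_normR {A : ℝ≥0∞} {f : Itv A → ℂ} (hf : InR f) {p : AP A} (hp : normAP p ≤ 1) :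
    ‖Phi f p‖ ≤ normR f := by
  obtain ⟨C, hC⟩ := hf
  refine le_csSup ?_ (show ‖Phi f p‖ ∈ {r : ℝ | ∃ p : AP A, normAP p ≤ 1 ∧ r = ‖Phi f p‖} from
    ⟨p, hp, rfl⟩)
  refine ⟨max C 0, ?_⟩
  rintro _ ⟨p, hp, rfl⟩
  have h1 := hC p
  have h2 : 0 ≤ normAP p := (norm_nonneg _).trans (norm_evalAP_le p 0)
  calc ‖Phi f p‖ ≤ C * normAP p := h1
    _ ≤ max C 0 * normAP p := by gcongr; exact le_max_left _ _
    _ ≤ max C 0 * 1 := by gcongr
    _ = max C 0 := mul_one _

/-- Sanity check: the constant function `1` lies in `P_A`, and `1 = 1 - 0` is a minimal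
decomposition; so the notions above are not vacuous. -/
lemma isMinimalDecomposition_one {A : ℝ≥0∞} (hA : 0 < A) :
    IsMinimalDecomposition hA (fun _ => (1 : ℂ)) (fun _ => (1 : ℂ)) (fun _ => (0 : ℂ)) := by
  have h1 : ∀ p : AP A, Phi (fun _ => (1 : ℂ)) p = evalAP p 0 := by
    intro p; simp [Phi, evalAP]
  have h2 : ∀ p : AP A, Phi (fun _ => (0 : ℂ)) p = 0 := by
    intro p; simp [Phi]
  have hn : ∀ p : AP A, 0 ≤ normAP p := fun p => (norm_nonneg _).trans (norm_evalAP_le p 0)
  have hR : InR (A := A) (fun _ => (1 : ℂ)) :=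
    ⟨1, fun p => by rw [h1, one_mul]; exact norm_evalAP_le p 0⟩
  refine ⟨⟨hR, fun p hp => by rw [h1]; exact hp 0⟩, ⟨⟨0, fun p => by rw [h2]; simp⟩,
    fun p _ => ⟨0, le_rfl, by rw [h2]; simp⟩⟩, fun _ => by simp, ?_⟩
  have hval : ∀ t : ℝ, evalAP (Finsupp.single (zeroI hA) 1) t = 1 := by
    intro t; simp [evalAP, zeroI]
  have hle : normR (A := A) (fun _ => (1 : ℂ)) ≤ 1 := by
    refine csSup_le ⟨_, Finsupp.single (zeroI hA) 1, ?_, rfl⟩ ?_
    · simp [normAP, hval]
    · rintro _ ⟨p, hp, rfl⟩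
      rw [h1]
      exact (norm_evalAP_le p 0).trans hp
  have hge : 1 ≤ normR (A := A) (fun _ => (1 : ℂ)) := by
    have := norm_phi_le_normR hR (p := Finsupp.single (zeroI hA) 1) (by simp [normAP, hval])
    rwa [h1, hval, norm_one] at this
  rw [le_antisymm hle hge]
  simp

/-- Near `0`, the positive part of a minimal decomposition of a measurable function is uniformly
close to measurable functions. -/
lemma approx_near_zero {A : ℝ≥0∞} (hA : 0 < A) {f fp fm : Itv A → ℂ} (hfm : LebMeas f)
    (hd : IsMinimalDecomposition hA f fp fm) (δ : ℝ) (hδ : 0 < δ) :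
    ∃ ε > 0, ∃ h : ℝ → ℂ, AEMeasurable h volume ∧ ∀ x : ℝ, |x| < ε → ‖ext0 fp x - h x‖ ≤ δ := by
  classical
  have h0 := zero_mem_Itv hA
  -- an almost extremal polynomial
  obtain ⟨p, hp, hpf⟩ : ∃ p : AP A, normAP p ≤ 1 ∧ normR f - δ < ‖Phi f p‖ := by
    have hne : {r : ℝ | ∃ p : AP A, normAP p ≤ 1 ∧ r = ‖Phi f p‖}.Nonempty :=
      ⟨_, 0, by simp [normAP, evalAP], rfl⟩
    obtain ⟨_, ⟨p, hp, rfl⟩, hlt⟩ := exists_lt_of_lt_csSup hne
      (show normR f - δ < sSup {r : ℝ | ∃ p : AP A, normAP p ≤ 1 ∧ r = ‖Phi f p‖} by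
        change normR f - δ < normR f
        linarith)
    exact ⟨p, hp, hlt⟩
  -- rotate
  obtain ⟨w, hw1, hw2⟩ : ∃ w : ℂ, ‖w‖ = 1 ∧ w * Phi f p = ‖Phi f p‖ := by
    by_cases h0 : Phi f p = 0
    · exact ⟨1, by simp, by simp [h0]⟩
    · have hn : (‖Phi f p‖ : ℂ) ≠ 0 := by simpa using h0
      refine ⟨conj (Phi f p) / ‖Phi f p‖, ?_, ?_⟩
      · rw [norm_div, RCLike.norm_conj]
        simp [h0]
      · rw [div_mul_eq_mul_div, Complex.conj_mul']
        field_simp
  let lam : p.support → ℝ := fun i => ((i : Itv A) : ℝ)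
  let c : p.support → ℂ := fun i => w * p i
  have hlI : ∀ i, lam i ∈ Itv A := fun i => (i : Itv A).2
  have hsumeval : ∀ t : ℝ, ∑ i, c i * Complex.exp (Complex.I * (lam i : ℝ) * t) =
      w * evalAP p t := by
    intro t
    simp only [evalAP, Finsupp.sum, Finset.mul_sum, c, lam]
    rw [← Finset.sum_coe_sort p.support
      (fun i => w * (p i * Complex.exp (Complex.I * ((i : ℝ) : ℂ) * t)))]
    exact Finset.sum_congr rfl fun i _ => by ring
  have hsumphi : ∀ g : Itv A → ℂ, ∑ i, c i * ext0 g (lam i) = w * Phi g p := by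
    intro g
    simp only [Phi, Finsupp.sum, Finset.mul_sum, c, lam]
    rw [← Finset.sum_coe_sort p.support (fun i => w * (p i * g i))]
    exact Finset.sum_congr rfl fun i _ => by rw [ext0_of_mem g (i : Itv A).2]; ring
  have hnorm : ∀ t : ℝ, ‖∑ i, c i * Complex.exp (Complex.I * (lam i : ℝ) * t)‖ ≤ 1 := by
    intro t
    rw [hsumeval, norm_mul, hw1, one_mul]
    exact (norm_evalAP_le p t).trans hp
  -- a neighbourhood of zero
  have hev : ∀ᶠ s : ℝ in 𝓝 0, s ∈ Itv A ∧ ∀ i, lam i + s ∈ Itv A ∧ s - lam i ∈ Itv A := by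
    have hev0 : ∀ᶠ s : ℝ in 𝓝 0, s ∈ Itv A := (isOpen_Itv A).mem_nhds h0
    refine hev0.and ?_
    rw [eventually_all]
    intro i
    have h1 : Tendsto (fun s : ℝ => lam i + s) (𝓝 0) (𝓝 (lam i)) := by
      have : Tendsto (fun s : ℝ => lam i + s) (𝓝 0) (𝓝 (lam i + 0)) :=
        (continuous_const.add continuous_id).tendsto 0
      simpa using this
    have h2 : Tendsto (fun s : ℝ => s - lam i) (𝓝 0) (𝓝 (-lam i)) := by
      have : Tendsto (fun s : ℝ => s - lam i) (𝓝 0) (𝓝 (0 - lam i)) :=
        (continuous_id.sub continuous_const).tendsto 0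
      simpa using this
    exact (h1.eventually ((isOpen_Itv A).mem_nhds (hlI i))).and
      (h2.eventually ((isOpen_Itv A).mem_nhds (neg_mem_Itv (hlI i))))
  obtain ⟨ε, hε, hball⟩ := Metric.eventually_nhds_iff.1 hev
  -- the measurable approximation
  set g : ℝ → ℂ := fun s => (1 / 2) * ∑ i, (c i * ext0 f (lam i + s) +
    conj (c i) * ext0 f (s - lam i)) with hg
  refine ⟨ε, hε, fun s => (1 / 2) * (ext0 f s + g s), ?_, ?_⟩
  · have hfm' := aemeasurable_ext0 hfm
    refine AEMeasurable.const_mul (hfm'.add ?_) _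
    refine AEMeasurable.const_mul ?_ _
    refine Finset.aemeasurable_fun_sum _ fun i _ => ?_
    refine AEMeasurable.add (AEMeasurable.const_mul ?_ _) (AEMeasurable.const_mul ?_ _)
    · exact hfm'.comp_quasiMeasurePreserving
        (measurePreserving_add_left volume (lam i)).quasiMeasurePreserving
    · exact hfm'.comp_quasiMeasurePreserving
        (measurePreserving_sub_right volume (lam i)).quasiMeasurePreserving
  · intro s hs
    obtain ⟨hsI, hsl⟩ := hball (y := s) (by simpa [Real.dist_eq] using hs)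
    have k1 := key_estimate hA hd.pos lam c
      (fun t => (Complex.re_le_norm _).trans (hnorm t)) s hsI hlI
      (fun i => (hsl i).1) (fun i => (hsl i).2)
    have k2 := key_estimate hA hd.neg lam (fun i => -c i)
      (fun t => by
        refine (Complex.re_le_norm _).trans ?_
        simp only [neg_mul, Finset.sum_neg_distrib, norm_neg]
        exact hnorm t) s hsI hlI
      (fun i => (hsl i).1) (fun i => (hsl i).2)
    have hdec : ∀ x ∈ Itv A, ext0 f x = ext0 fp x - ext0 fm x := by
      intro x hx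
      rw [ext0_of_mem f hx, ext0_of_mem fp hx, ext0_of_mem fm hx, hd.decomp]
    have hgs : g s = (1 / 2) * ∑ i, (c i * ext0 fp (lam i + s) + conj (c i) * ext0 fp (s - lam i)) -
        (1 / 2) * ∑ i, (c i * ext0 fm (lam i + s) + conj (c i) * ext0 fm (s - lam i)) := by
      rw [← mul_sub, ← Finset.sum_sub_distrib, hg]
      simp only []
      congr 1
      refine Finset.sum_congr rfl fun i _ => ?_
      rw [hdec _ (hsl i).1, hdec _ (hsl i).2]
      ring
    have hk2 : (1 / 2 : ℂ) * ∑ i, (-c i * ext0 fm (lam i + s) +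
        conj (-c i) * ext0 fm (s - lam i)) =
        -((1 / 2) * ∑ i, (c i * ext0 fm (lam i + s) + conj (c i) * ext0 fm (s - lam i))) := by
      rw [← mul_neg, ← Finset.sum_neg_distrib]
      congr 1
      refine Finset.sum_congr rfl fun i _ => ?_
      rw [map_neg]
      ring
    rw [hk2, sub_neg_eq_add] at k2
    have hsum2 : ∑ i, -c i * ext0 fm (lam i) = -(w * Phi fm p) := by
      rw [← hsumphi fm, ← Finset.sum_neg_distrib]
      exact Finset.sum_congr rfl fun i _ => by ring
    rw [hsum2] at k2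
    rw [hsumphi fp] at k1
    -- the total defect
    have hphi : Phi f p = Phi fp p - Phi fm p := by
      simp only [Phi, Finsupp.sum, ← Finset.sum_sub_distrib]
      exact Finset.sum_congr rfl fun i _ => by rw [hd.decomp]; ring
    have htot : (ext0 fp 0).re - (w * Phi fp p).re + ((ext0 fm 0).re - (-(w * Phi fm p)).re) =
        normR f - ‖Phi f p‖ := by
      have hm := congrArg Complex.re hd.minimal
      rw [Complex.ofReal_re, Complex.add_re] at hm
      have h1 : ext0 fp 0 = fp (zeroI hA) := ext0_of_mem fp h0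
      have h2 : ext0 fm 0 = fm (zeroI hA) := ext0_of_mem fm h0
      have h3 := congrArg Complex.re hw2
      rw [hphi, mul_sub, Complex.sub_re, Complex.ofReal_re, ← hphi] at h3
      rw [h1, h2, Complex.neg_re]
      linarith
    have hexp : ext0 fp s - (1 / 2) * (ext0 f s + g s) = (1 / 2) *
        ((ext0 fp s - (1 / 2) * ∑ i, (c i * ext0 fp (lam i + s) +
          conj (c i) * ext0 fp (s - lam i))) +
        (ext0 fm s + (1 / 2) * ∑ i, (c i * ext0 fm (lam i + s) +
          conj (c i) * ext0 fm (s - lam i)))) := by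
      rw [hgs, hdec s hsI]
      ring
    rw [hexp, norm_mul]
    have h12 : ‖(1 / 2 : ℂ)‖ = 1 / 2 := by simp
    rw [h12]
    have h3 := norm_add_le (ext0 fp s - (1 / 2) * ∑ i, (c i * ext0 fp (lam i + s) +
          conj (c i) * ext0 fp (s - lam i)))
        (ext0 fm s + (1 / 2) * ∑ i, (c i * ext0 fm (lam i + s) +
          conj (c i) * ext0 fm (s - lam i)))
    linarith

/-- **Positive answer to Q1.** For every `A ∈ (0, ∞]`, every Hermitian Lebesgue measurable
`f ∈ R_A` and every minimal decomposition `f = f₊ - f₋`, both parts are Lebesgue measurable. -/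
theorem result (A : ℝ≥0∞) (hA : 0 < A) (f : Itv A → ℂ) (_hR : InR f) (_hH : Herm f)
    (hm : LebMeas f) (fp fm : Itv A → ℂ) (hd : IsMinimalDecomposition hA f fp fm) :
    LebMeas fp ∧ LebMeas fm := by
  have hplus : AEMeasurable (ext0 fp) (volume.restrict (Itv A)) := by
    apply Pool.Agent.H29.PosDefMeas.aemeasurable_of_approx (Itv A) (measurableSet_Itv A)
      (fun x hx => neg_mem_Itv hx) ?_ (ext0 fp) (fun x hx => herm_of_pos hA hd.pos hx)
      (fun X hX a => psd_of_pos hd.pos X hX a) (fun δ hδ => approx_near_zero hA hm hd δ hδ)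
    obtain ⟨ε, hε, hball⟩ := Metric.isOpen_iff.1 (isOpen_Itv A) 0 (zero_mem_Itv hA)
    exact ⟨ε, hε, fun x hx => hball (by simpa [Real.dist_eq] using hx)⟩
  have hminus : AEMeasurable (ext0 fm) (volume.restrict (Itv A)) := by
    have : ext0 fm = fun x => ext0 fp x - ext0 f x := by
      ext x
      by_cases hx : x ∈ Itv A
      · rw [ext0_of_mem f hx, ext0_of_mem fp hx, ext0_of_mem fm hx, hd.decomp]; ring
      · simp [ext0, hx]
    rw [this]
    exact hplus.sub (aemeasurable_ext0 hm).restrict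
  exact ⟨lebMeas_of_aemeasurable hplus, lebMeas_of_aemeasurable hminus⟩

end Pool.Agent.Results.MP_a2f955_an.Measurability
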